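import Pool.Agent.P.MP_0ad50f_co.BL.Main

namespace Pool.Agent.Results.MP_0ad50f_co.Bridgeless

/-- Every finite simple graph without a bridge in which every degree is even or at least nine has
a majority neighbour sum distinguishing edge-colouring with colours `1, …, 5`. -/
theorem result : ∀ (V : Type) [Fintype V] [DecidableEq V] (G : SimpleGraph V)
    [DecidableRel G.Adj], (∀ v, Even (G.degree v) ∨ 9 ≤ G.degree v) →
    (∀ e ∈ G.edgeSet, ¬ G.IsBridge e) →
    ∃ c : Sym2 V → ℕ, (∀ e ∈ G.edgeSet, 1 ≤ c e ∧ c e ≤ 5) ∧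
      (∀ u v, G.Adj u v →
        ∑ w ∈ G.neighborFinset u, c s(u, w) ≠ ∑ w ∈ G.neighborFinset v, c s(v, w)) ∧
      ∀ v a, 2 * ((G.neighborFinset v).filter fun w => c s(v, w) = a).card ≤ G.degree v :=
  fun _ _ _ G _ h hb => Pool.Agent.P.MP_0ad50f_co.BL.main G h hb

end Pool.Agent.Results.MP_0ad50f_co.Bridgeless
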