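import Pool.Agent.P.MP_0ad50f_co.SC.Main

namespace Pool.Agent.Results.MP_0ad50f_co.Subcubic

/-- Every finite simple graph of maximum degree at most three with no component `K₂` has a
neighbour sum distinguishing edge-colouring with colours `1, …, 5` that is majority at every
vertex of degree at least two. -/
theorem result : ∀ (V : Type) [Fintype V] [DecidableEq V] (G : SimpleGraph V)
    [DecidableRel G.Adj], (∀ v, G.degree v ≤ 3) →
    (∀ u v, G.Adj u v → 2 ≤ G.degree u ∨ 2 ≤ G.degree v) →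
    ∃ c : Sym2 V → ℕ, (∀ e ∈ G.edgeSet, 1 ≤ c e ∧ c e ≤ 5) ∧
      (∀ u v, G.Adj u v →
        ∑ w ∈ G.neighborFinset u, c s(u, w) ≠ ∑ w ∈ G.neighborFinset v, c s(v, w)) ∧
      ∀ v a, 2 ≤ G.degree v →
        2 * ((G.neighborFinset v).filter fun w => c s(v, w) = a).card ≤ G.degree v := by
  intro V _ _ G _ h3 h2
  obtain ⟨c, h1, hs, hp⟩ := Pool.Agent.P.MP_0ad50f_co.SC.main V G h3 h2
  refine ⟨c, h1, hs, fun v a hv => ?_⟩
  have := hp v a
  omega

end Pool.Agent.Results.MP_0ad50f_co.Subcubic
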